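import Pool.Agent.P8H58.DL.StmB
import Pool.Agent.N85.WM.Pir
import Pool.Agent.N85.WM.Lw

/-!
# Project DL, part LPR: irreducible traces of the base group of the wreath product with `C_r`
-/

set_option autoImplicit false

open scoped Classical

noncomputable section

namespace Pool.Agent.P8H62.DL.Lpr

open Pool.Agent.Y63.NV Pool.Agent.N85.WM Pool.Agent.N85.WM.Lw

section count

variable (h : S_PIR) (p : ℕ) [Fact p.Prime] (r : ℕ) [Fact r.Prime] (F : Type) [Field F]
  [IsAlgClosed F] [CharP F p] (G : Type) [Group G] [Finite G] (e : G → F) (he : IsIdem e)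

include p h he

theorem count1 : Nat.card {φ : (ZMod r → G) → F // IsIrrTrace φ ∧ True ∧
      ∀ x, ∑ᶠ g, tensF (fun _ => e) g * φ (g * x) = 1 * φ x} = Nat.card (A e) ^ r := by
  obtain ⟨h1, h2⟩ := h p F (ZMod r) G
  let T : (ZMod r → A e) → {φ : (ZMod r → G) → F // IsIrrTrace φ ∧ True ∧
      ∀ x, ∑ᶠ g, tensF (fun _ => e) g * φ (g * x) = 1 * φ x} := fun θ =>
    ⟨tensF (fun i => (θ i).1), (h1 _).2 ⟨_, fun i => (θ i).2.1, rfl⟩, trivial,
      (key (fun i => (θ i).1) (fun i => (θ i).2.1) e he).2 fun i => (θ i).2.2⟩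
  have hT : Function.Bijective T := by
    constructor
    · intro θ θ' hh
      have h3 := congrArg Subtype.val hh
      have h4 := h2 _ _ (fun i => (θ i).2.1) (fun i => (θ' i).2.1) h3
      funext i
      exact Subtype.ext (congrFun h4 i)
    · rintro ⟨φ, hφ, -, hc⟩
      obtain ⟨θ, hθ, rfl⟩ := (h1 φ).1 hφ
      refine ⟨fun i => ⟨θ i, hθ i, (key θ hθ e he).1 hc i⟩, rfl⟩
  rw [← Nat.card_congr (Equiv.ofBijective T hT), Nat.card_fun, Nat.card_zmod]

theorem count2 : Nat.card {φ : (ZMod r → G) → F // IsIrrTrace φ ∧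
      (∀ (t : ZMod r) (x : ZMod r → G), φ (fun i => x (i - t)) = φ x) ∧
      ∀ x, ∑ᶠ g, tensF (fun _ => e) g * φ (g * x) = 1 * φ x} = Nat.card (A e) := by
  obtain ⟨h1, h2⟩ := h p F (ZMod r) G
  have hs : ∀ (θ : ZMod r → G → F) (t : ZMod r) (x : ZMod r → G),
      tensF θ (fun i => x (i - t)) = tensF (fun j => θ (j + t)) x := by
    intro θ t x
    unfold tensF
    rw [← Equiv.prod_comp (Equiv.addRight t)]
    refine Finset.prod_congr rfl fun i _ => ?_
    simp
  let T : A e → {φ : (ZMod r → G) → F // IsIrrTrace φ ∧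
      (∀ (t : ZMod r) (x : ZMod r → G), φ (fun i => x (i - t)) = φ x) ∧
      ∀ x, ∑ᶠ g, tensF (fun _ => e) g * φ (g * x) = 1 * φ x} := fun θ =>
    ⟨tensF (fun _ => θ.1), (h1 _).2 ⟨_, fun i => θ.2.1, rfl⟩, fun t x => hs _ t x,
      (key (fun _ => θ.1) (fun i => θ.2.1) e he).2 fun i => θ.2.2⟩
  have hT : Function.Bijective T := by
    constructor
    · intro θ θ' hh
      have h3 := congrArg Subtype.val hh
      have h4 := h2 _ _ (fun i => θ.2.1) (fun i => θ'.2.1) h3
      exact Subtype.ext (congrFun h4 0)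
    · rintro ⟨φ, hφ, hi, hc⟩
      obtain ⟨θ, hθ, rfl⟩ := (h1 φ).1 hφ
      have h5 : ∀ t : ZMod r, (fun j => θ (j + t)) = θ := by
        intro t
        refine h2 _ _ (fun i => hθ _) hθ ?_
        funext x
        rw [← hs, hi]
      have h6 : θ = fun _ => θ 0 := by
        funext j
        have := congrFun (h5 j) 0
        simp only [zero_add] at this
        exact this
      refine ⟨⟨θ 0, hθ 0, (key θ hθ e he).1 hc 0⟩, ?_⟩
      apply Subtype.ext
      exact congrArg tensF h6.symm
  rw [← Nat.card_congr (Equiv.ofBijective T hT)]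

end count

theorem main (h : S_PIR) : Pool.Agent.P8H58.DL.S_LPR := by
  intro p _ r _ F _ _ _ G _ _ e he
  have hw : ∀ a : ZMod r → G, wrF r e ((bEq r G a : Base r G) : Wr r G) =
      tensF (fun _ => e) a := by
    intro a
    rw [bEq_coe]
    unfold wrF tensF
    rw [SemidirectProduct.right_inl, if_pos rfl, SemidirectProduct.left_inl]
  constructor
  · rw [lnum_card (⊤ : Subgroup (Base r G)) ⊤ ((bEq r G).trans Subgroup.topEquiv.symm)
      (fun x => wrF r e x) (tensF fun _ => e) 1 (fun a => hw a) (fun _ => True) ?_,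
      count1 h p r F G e he, card_A]
    · intro φ hφ
      refine iff_of_true ?_ trivial
      rintro k - x y hxy
      have h1 : ((y : (⊤ : Subgroup (Base r G))) : Base r G) = k * x * k⁻¹ := hxy
      have h2 : ∀ x : (⊤ : Subgroup (Base r G)),
          ((bEq r G).trans Subgroup.topEquiv.symm).symm x = (bEq r G).symm (x : Base r G) :=
        fun _ => rfl
      simp only [h2]
      rw [h1, map_mul, map_mul, map_inv]
      exact irr_cl hφ _ _
  · rw [lnum_card (Base r G) ⊤ (bEq r G) (wrF r e) (tensF fun _ => e) 1 hw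
      (fun φ => ∀ (t : ZMod r) (x : ZMod r → G), φ (fun i => x (i - t)) = φ x) ?_,
      count2 h p r F G e he, card_A]
    · intro φ hφ
      constructor
      · intro hi t x
        have h4 : ((bEq r G (fun i => x (i - t)) : Base r G) : Wr r G) =
            (SemidirectProduct.inr (Multiplicative.ofAdd t) : Wr r G) *
              ((bEq r G x : Base r G) : Wr r G) *
              (SemidirectProduct.inr (Multiplicative.ofAdd t) : Wr r G)⁻¹ := by
          rw [bEq_coe, bEq_coe, ← map_inv]
          exact SemidirectProduct.inl_aut (φ := shiftHom r G) (Multiplicative.ofAdd t) x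
        have h5 := hi _ (Subgroup.mem_top _) _ _ h4
        simp only [MulEquiv.symm_apply_apply] at h5
        exact h5
      · rintro hi k - x y hxy
        obtain ⟨a, rfl⟩ := (bEq r G).surjective x
        obtain ⟨b, rfl⟩ := (bEq r G).surjective y
        simp only [MulEquiv.symm_apply_apply]
        rw [bEq_coe, bEq_coe, ← SemidirectProduct.inl_left_mul_inr_right k] at hxy
        have h6 : (SemidirectProduct.inl b : Wr r G) = SemidirectProduct.inl
            (k.left * (shiftHom r G k.right a) * k.left⁻¹) := by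
          rw [hxy, map_mul, map_mul, SemidirectProduct.inl_aut, map_inv, map_inv]
          group
        have h7 := SemidirectProduct.inl_injective h6
        rw [h7, irr_cl hφ]
        exact hi k.right.toAdd a

theorem lpr : Pool.Agent.P8H58.DL.S_LPR := main Pool.Agent.N85.WM.Pir.main

end Pool.Agent.P8H62.DL.Lpr
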