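import Pool.Agent.P8H62.DL.Frb

/-!
# Project DL, part WRL: irreducible traces and the wreath product with `C_r`, `r ≠ p`
-/

set_option autoImplicit false

open scoped Classical

noncomputable section

namespace Pool.Agent.P8H62.DL.Wrl

open Pool.Agent.Y63.NV Pool.Agent.N85.WM Pool.Agent.P8H58 Pool.Agent.P8H62.DL.Frb
open Pool.Agent.N85.WM.Lw (card_A A)
open Pool.Agent.N85.WM.Ww (inZ)

theorem wrl : Pool.Agent.P8H58.DL.S_WRL := by
  intro hlpr p _ r _ F _ _ _ G _ _ e hrp he
  have hp : p.Prime := Fact.out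
  obtain ⟨h1, h2⟩ := hlpr p r F G e he
  set l := Lnum (⊤ : Subgroup G) ⊤ e 1 with hl
  have f : Fr p (Base r G) (Base r G) (⊤ : Subgroup (Wr r G)) := frb hp hrp
  have h3 := lnum_eq (F := F) hp f le_top (le_refl (⊤ : Subgroup (Wr r G)))
    (inZ (p := r) he.cl) (1 : F)
  rw [top_sup_eq, Subgroup.card_top, cardWr] at h3
  set L' := Lnum (⊤ : Subgroup (Wr r G)) ⊤ (wrF r e) 1 with hL'
  set N := Nat.card (Base r G) with hN
  have hN0 : 0 < N := Nat.card_pos
  set P : (Base r G → F) → Prop := fun φ =>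
    Vl (fun x : Base r G => wrF r e x) 1 φ ∧ IsInvUnder (Base r G) φ with hP
  -- the number of all
  have h4 : (irs P).card = l ^ r := by
    rw [← h1, card_A, ← card_irs]
    refine Nat.card_congr (Equiv.subtypeEquivRight fun φ => ?_)
    constructor
    · rintro ⟨a, b, -⟩
      refine ⟨a, fun y => ?_⟩
      have := b y
      rwa [one_mul] at this
    · rintro ⟨a, b⟩
      refine ⟨a, fun y => ?_, ?_⟩
      · rw [one_mul]
        exact b y
      · intro k hk x y hxy
        have h5 : y = ⟨k, hk⟩ * x * (⟨k, hk⟩ : Base r G)⁻¹ := Subtype.ext hxy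
        rw [h5]
        exact irr_class a _ _
  -- the invariant ones
  have h5 : ((irs P).filter fun φ => IsInvUnder (⊤ : Subgroup (Wr r G)) φ).card = l := by
    rw [← h2]
    have h6 : (irs P).filter (fun φ => IsInvUnder (⊤ : Subgroup (Wr r G)) φ) =
        irs (fun φ : Base r G → F => IsInvUnder (⊤ : Subgroup (Wr r G)) φ ∧
          ∀ x : Base r G, ∑ᶠ g : Base r G, wrF r e g * φ (g * x) = 1 * φ x) := by
      ext φ
      rw [Finset.mem_filter, mem_irs, mem_irs]
      constructor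
      · rintro ⟨⟨a, b, -⟩, c⟩
        exact ⟨a, c, b⟩
      · rintro ⟨a, c, b⟩
        exact ⟨⟨a, b, fun h _ => c h (Subgroup.mem_top _)⟩, c⟩
    rw [h6, ← card_irs]
    rfl
  have hle : ∀ φ ∈ irs P, Base r G ≤ st φ := by
    intro φ hφ k hk
    exact (mem_irs.1 hφ).2.2 k hk
  rw [← Finset.sum_filter_add_sum_filter_not (irs P)
    (fun φ => IsInvUnder (⊤ : Subgroup (Wr r G)) φ)] at h3
  have h7 : ∑ φ ∈ (irs P).filter (fun φ => IsInvUnder (⊤ : Subgroup (Wr r G)) φ),
      (Nat.card ↥(⊤ ⊓ st φ)) ^ 2 = l * (r * N) ^ 2 := by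
    rw [Finset.sum_congr rfl (g := fun _ => (r * N) ^ 2), Finset.sum_const, h5, smul_eq_mul]
    intro φ hφ
    have h8 : st φ = (⊤ : Subgroup (Wr r G)) := by
      rw [eq_top_iff]
      intro k _
      exact (Finset.mem_filter.1 hφ).2 k (Subgroup.mem_top _)
    rw [h8, top_inf_eq, Subgroup.card_top, cardWr]
  have h9 : ∑ φ ∈ (irs P).filter (fun φ => ¬ IsInvUnder (⊤ : Subgroup (Wr r G)) φ),
      (Nat.card ↥(⊤ ⊓ st φ)) ^ 2 =
        ((irs P).filter fun φ => ¬ IsInvUnder (⊤ : Subgroup (Wr r G)) φ).card * N ^ 2 := by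
    rw [Finset.sum_congr rfl (g := fun _ => N ^ 2), Finset.sum_const, smul_eq_mul]
    intro φ hφ
    rw [Finset.mem_filter] at hφ
    rcases cases (hle φ hφ.1) with h10 | h10
    · rw [h10, top_inf_eq]
    · exfalso
      refine hφ.2 fun k _ => ?_
      have : k ∈ st φ := by rw [h10]; exact Subgroup.mem_top _
      exact this
  have h11 := Finset.card_filter_add_card_filter_not (s := irs P)
    (fun φ => IsInvUnder (⊤ : Subgroup (Wr r G)) φ)
  rw [h5, h4] at h11
  rw [h7, h9] at h3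
  set a := ((irs P).filter fun φ => ¬ IsInvUnder (⊤ : Subgroup (Wr r G)) φ).card with ha
  have h12 : (r * L') * N ^ 2 = (l * r ^ 2 + a) * N ^ 2 := by
    have : r * N * N * L' = (r * L') * N ^ 2 := by ring
    rw [← this, ← h3]
    ring
  have h13 : r * L' = l * r ^ 2 + a := Nat.eq_of_mul_eq_mul_right (by positivity) h12
  rw [h13, ← h11]
  ring

end Pool.Agent.P8H62.DL.Wrl
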