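import Pool.Agent.P8H62.DL.Frb

/-!
# Project DL, part WRW: weights and the wreath product with `C_r`, `r ≠ p`
-/

set_option autoImplicit false

open scoped Classical

noncomputable section

namespace Pool.Agent.P8H62.DL.Wrw

open Pool.Agent.Y63.NV Pool.Agent.N85.WM Pool.Agent.P8H58 Pool.Agent.P8H62.DL.Frb
open Pool.Agent.N85.WM.Ww (inZ tot tot_congr wsum_tot tot_cm cm isW_cm_iff wcv_cm bE)

theorem fx_one {Γ : Type} [Group Γ] (N : Subgroup Γ) (Q : Subgroup N) (χ : N → ℂ) :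
    Fx N Q χ 1 := by
  constructor
  · intro x y hxy
    have : y = x := Subtype.ext (by rw [hxy]; group)
    rw [this]
  · intro x y hxy
    have : y = x := Subtype.ext (by rw [hxy]; group)
    rw [this]

theorem fxc_mem {Γ : Type} [Group Γ] (N : Subgroup Γ) (Q : Subgroup N) (χ : N → ℂ) {g : Γ}
    (hg : g ∈ N) : FxC N Q χ g :=
  ⟨g⁻¹, N.inv_mem hg, by rw [inv_mul_cancel]; exact fx_one N Q χ⟩

/-- the stabiliser of the class is the whole group if and only if the weight is fixed by an element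
outside the base group -/
theorem uw_iff {r : ℕ} [Fact r.Prime] {G : Type} [Group G] [Finite G]
    (Q : Subgroup (Base r G)) (χ : Base r G → ℂ) :
    UW Q χ = (⊤ : Subgroup (Wr r G)) ↔ FixedOut (Base r G) Q χ := by
  constructor
  · intro h
    have h1 : Base r G ≠ (⊤ : Subgroup (Wr r G)) := by
      intro h2
      have h3 := index_base (r := r) (G := G)
      rw [h2, Subgroup.index_top] at h3
      exact (Fact.out : r.Prime).one_lt.ne h3
    obtain ⟨g, hg⟩ : ∃ g : Wr r G, g ∉ Base r G := by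
      by_contra hcon
      push Not at hcon
      exact h1 (eq_top_iff.2 fun x _ => hcon x)
    have h2 : g ∈ UW Q χ := by rw [h]; exact Subgroup.mem_top _
    obtain ⟨n, hn, h3⟩ := mem_UW.1 h2
    refine ⟨n * g, ?_, h3.1, h3.2⟩
    intro h4
    exact hg ((Subgroup.mul_mem_cancel_left _ hn).1 h4)
  · rintro ⟨g, hg, h1, h2⟩
    rcases cases (le_UW Q χ) with h3 | h3
    · exfalso
      apply hg
      rw [← h3]
      exact Subgroup.mem_sup_right (mem_StW.2 ⟨h1, h2⟩)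
    · exact h3

/-- the number of weights of the whole group as a subgroup -/
theorem tot_top {p : ℕ} [Fact p.Prime] {F : Type} [Field F] (red : integralClosure ℤ ℂ →+* F)
    {Γ : Type} [Group Γ] [Finite Γ] {z : Γ → F} (hz : IsClassFun z) (c : F) (K : Subgroup Γ) :
    tot (fun (Q : Subgroup (⊤ : Subgroup Γ)) χ => IsW p Q χ ∧
      wcv red Q χ (fun x : (⊤ : Subgroup Γ) => z x) = c ∧ ∀ g ∈ ⊤ ⊔ K, FxC ⊤ Q χ g) =
    tot (fun (Q : Subgroup Γ) χ => IsW p Q χ ∧ wcv red Q χ z = c) := by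
  refine tot_cm (Subgroup.topEquiv : (⊤ : Subgroup Γ) ≃* Γ) fun Q χ => ?_
  rw [isW_cm_iff]
  refine and_congr_right fun h => ?_
  have h1 := wcv_cm red (Subgroup.topEquiv : (⊤ : Subgroup Γ) ≃* Γ) h hz
  constructor
  · rintro ⟨h2, -⟩
    rw [← h1]
    exact h2
  · intro h2
    refine ⟨?_, fun g _ => fxc_mem _ _ _ (Subgroup.mem_top g)⟩
    rw [← h1] at h2
    exact h2

theorem wrw : Pool.Agent.P8H58.DL.S_WRW := by
  intro hwpr p _ r _ F _ _ _ red G _ _ e w hrp he hw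
  have hp : p.Prime := Fact.out
  obtain ⟨h1, h2⟩ := hwpr p r F red G e w he hw
  have f : Fr p (Base r G) (Base r G) (⊤ : Subgroup (Wr r G)) := frb hp hrp
  have hz : InZ (Base r G) (wrF r e) := inZ (p := r) he.cl
  have hfin := wk_fin (p := p) (G := Base r G) (K := Base r G) red (wrF r e) (1 : F)
  have hft : Fintype (WK p red (Base r G) (Base r G) (wrF r e) (1 : F)) := Fintype.ofFinite _
  have h3 := f.tot_eq red le_top (le_refl (⊤ : Subgroup (Wr r G))) hz (1 : F)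
  rw [tot_top red (fun g x => hz.conj g x) 1 (Base r G), ← wsum_tot] at h3
  set T := Wsum p red (⊤ : Subgroup (Wr r G)) ⊤ (wrF r e) 1 with hT
  set P : Subgroup (Base r G) → (Base r G → ℂ) → Prop := fun Q χ => IsW p Q χ ∧
    wcv red Q χ (fun x : Base r G => wrF r e x) = 1 ∧ ∀ κ ∈ Base r G, FxC (Base r G) Q χ κ with hP
  let hPf : Fintype {w : Subgroup (Base r G) × (Base r G → ℂ) // P w.1 w.2} := hft
  have h4 := Pool.Agent.N85.WM.Ww.tot_eq P (fun _ _ => True)
  have h5 := Pool.Agent.N85.WM.Ww.tot_eq P (fun Q χ => FixedOut (Base r G) Q χ)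
  have h6 : tot (fun Q χ => P Q χ ∧ True) = (Nat.card G : ℤ) ^ r * (w : ℤ) ^ r := by
    rw [← h1, wsum_tot]
    refine tot_congr fun Q χ => ?_
    constructor
    · rintro ⟨⟨a, b, -⟩, -⟩
      exact ⟨a, b⟩
    · rintro ⟨a, b⟩
      exact ⟨⟨a, b, fun κ hκ => fxc_mem _ _ _ hκ⟩, trivial⟩
  have h7 : tot (fun Q χ => P Q χ ∧ FixedOut (Base r G) Q χ) = (Nat.card G : ℤ) ^ r * (w : ℤ) := by
    rw [← h2]
    refine tot_congr fun Q χ => ?_
    constructor
    · rintro ⟨⟨a, b, -⟩, c⟩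
      exact ⟨a, b, c⟩
    · rintro ⟨a, b, c⟩
      exact ⟨⟨a, b, fun κ hκ => fxc_mem _ _ _ hκ⟩, c⟩
  have hN : (Nat.card (Base r G) : ℤ) = (Nat.card G : ℤ) ^ r := by
    rw [← Nat.card_congr (bE r G).toEquiv, Nat.card_fun, Nat.card_zmod]
    push_cast
    rfl
  have hΓ : (Nat.card (Wr r G) : ℤ) = r * (Nat.card G : ℤ) ^ r := by
    rw [cardWr, Nat.cast_mul, hN]
  have hG0 : (Nat.card G : ℤ) ^ r ≠ 0 := by
    have : (Nat.card G : ℤ) ≠ 0 := by exact_mod_cast Nat.card_pos.ne'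
    exact pow_ne_zero _ this
  set M : ℤ := (Nat.card G : ℤ) ^ r with hM
  rw [h6] at h4
  rw [h7] at h5
  have h8 : ∑ w : WK p red (Base r G) (Base r G) (wrF r e) (1 : F),
      (Nat.card (Subgroup.normalizer (w.1.1 : Set (Base r G))) : ℤ) *
      (Nat.card ↥(⊤ ⊓ UW w.1.1 w.1.2) : ℤ) ^ 2 =
      M ^ 2 * (M * (w : ℤ) ^ r) + ((r : ℤ) ^ 2 - 1) * M ^ 2 * (M * w) := by
    rw [h4, h5, Finset.mul_sum, Finset.mul_sum, ← Finset.sum_add_distrib]
    refine Finset.sum_congr rfl fun v _ => ?_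
    rw [if_pos trivial, top_inf_eq]
    by_cases hv : FixedOut (Base r G) v.1.1 v.1.2
    · rw [if_pos hv, (uw_iff v.1.1 v.1.2).2 hv, Subgroup.card_top, hΓ]
      ring
    · rw [if_neg hv]
      have h9 : UW v.1.1 v.1.2 = Base r G := by
        rcases cases (le_UW v.1.1 v.1.2) with h10 | h10
        · exact h10
        · exact absurd ((uw_iff v.1.1 v.1.2).1 h10) hv
      rw [h9, hN]
      ring
  have h3' : M ^ 2 * (M * (w : ℤ) ^ r) + ((r : ℤ) ^ 2 - 1) * M ^ 2 * (M * w) =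
      (Nat.card (Base r G) : ℤ) ^ 2 * T := by
    rw [← h8, ← h3]
  rw [hN] at h3'
  have h9 : T = M * ((w : ℤ) ^ r + ((r : ℤ) ^ 2 - 1) * w) := by
    have h10 : M ^ 2 ≠ 0 := pow_ne_zero _ hG0
    apply mul_left_cancel₀ h10
    rw [← h3']
    ring
  -- the divisibility
  have h10 : w ≡ w ^ r [MOD r] := by
    rw [← ZMod.natCast_eq_natCast_iff]
    push_cast
    exact (ZMod.pow_card (w : ZMod r)).symm
  have hr : r ≠ 0 := (Fact.out : r.Prime).ne_zero
  have h11 : w ≤ w ^ r := Nat.le_self_pow hr w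
  obtain ⟨k, hk⟩ := (Nat.modEq_iff_dvd' h11).1 h10
  have h12 : w ^ r = w + r * k := by omega
  refine ⟨k + r * w, ?_, ?_⟩
  · rw [h9, hΓ]
    have h13 : (w : ℤ) ^ r = w + r * k := by exact_mod_cast h12
    rw [h13]
    push_cast
    ring
  · rw [h12]
    ring

end Pool.Agent.P8H62.DL.Wrw
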