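import Pool.Agent.P8H58.DL.StmB
import Pool.Agent.P8H58.Gam5

/-!
# Project DL: the base group of the wreath product with `C_r`
-/

set_option autoImplicit false

open scoped Classical

noncomputable section

namespace Pool.Agent.P8H62.DL.Frb

open Pool.Agent.Y63.NV Pool.Agent.N85.WM Pool.Agent.P8H58

variable {r : ℕ} [Fact r.Prime] {G : Type} [Group G]

theorem index_base : (Base r G).index = r := Pool.Agent.N85.WM.Ww.card_quot (p := r) (G := G)

theorem card_sub : Nat.card (↥(⊤ : Subgroup (Wr r G)) ⧸ (Base r G).subgroupOf ⊤) = r := by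
  change (Base r G).relIndex ⊤ = r
  rw [Subgroup.relIndex_top_right]
  exact index_base

theorem frb {p : ℕ} (hp : p.Prime) (h : r ≠ p) : Fr p (Base r G) (Base r G) ⊤ where
  GK := le_rfl
  GH := le_top
  inf := inf_le_left
  pK k hk := ⟨0, by simpa using hk⟩
  cyc := isCyclic_of_prime_card (p := r) card_sub
  p' := by
    rw [card_sub]
    intro h1
    exact h ((Nat.prime_dvd_prime_iff_eq hp Fact.out).1 h1).symm

theorem cases {S : Subgroup (Wr r G)} (hS : Base r G ≤ S) : S = Base r G ∨ S = ⊤ := by
  have h1 := Subgroup.relIndex_mul_index hS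
  rw [index_base] at h1
  rcases (Nat.Prime.eq_one_or_self_of_dvd (Fact.out : r.Prime) _ (Dvd.intro _ h1)) with h2 | h2
  · left
    exact le_antisymm (Subgroup.relIndex_eq_one.1 h2) hS
  · right
    rw [h2] at h1
    have hr : 0 < r := (Fact.out : r.Prime).pos
    have h3 : S.index = 1 := Nat.eq_of_mul_eq_mul_left hr (by rw [h1, mul_one])
    exact Subgroup.index_eq_one.1 h3

theorem cardWr : Nat.card (Wr r G) = r * Nat.card (Base r G) := by
  rw [← Subgroup.card_mul_index (Base r G), index_base, mul_comm]

end Pool.Agent.P8H62.DL.Frb
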